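import Pool.Agent.T2H10.WB.Asm
import Pool.Agent.T2H10.WB.GDE
import Pool.Agent.T2H10.WB.PSI
import Pool.Agent.T2H10.WB.IBP
import Pool.Agent.T2H10.WB.HEA
import Pool.Agent.T2H10.WB.APX
import Pool.Agent.T2H10.WB.REP
import Pool.Agent.T2H10.WB.SEM
import Pool.Agent.T2H10.WB.PAI
import Pool.Agent.T2H10.WB.ENE
import Pool.Agent.T2H10.WB.BAS
import Pool.Agent.T2H10.WB.MOM
import Pool.Agent.T2H10.WB.INT
import Pool.Agent.T2H10.WB.LIM
import Pool.Agent.T2H10.WB.LOW
import Pool.Agent.T2H10.WB.EXT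
import Pool.Agent.T2H10.WB.UPP
import Pool.Agent.T2H10.WB.UPL
import Pool.Agent.T2H10.WB.LAP
import Pool.Agent.T2H10.WB.CNV
import Pool.Agent.T2H10.WB.QIN
import Pool.Agent.T2H10.WB.FGH
import Pool.Agent.T2H10.WB.SOB
import Pool.Agent.T2H10.WB.DBD
import Pool.Agent.T2H10.WB.DUP
import Pool.Agent.T2H10.WB.DLO
import Pool.Agent.T2H10.WB.SPL
import Pool.Agent.T2H10.WB.PER
import Pool.Agent.T2H10.WB.LBA
import Pool.Agent.T2H10.WB.TLO
import Pool.Agent.T2H10.WB.UBA
import Pool.Agent.T2H10.WB.CPX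
import Pool.Agent.T2H10.WB.SCA

/-!
# Weak-bending asymptotics of the leaky broken line (MP_687a20_mp), full answer

`Gm θ` is the broken line `Γ_θ` (two half lines from the origin forming the angle `π - θ`), parametrised by arc length,
`form α θ` is the quadratic form `‖∇ψ‖² - α ∫_Γ |ψ|²`, and `lam α θ` is its infimum over the `C¹` functions `ψ` of compact
support with `‖ψ‖ = 1`, i.e. the bottom of the spectrum of `-Δ - α δ(x - Γ_θ)`, which for small `θ > 0` is the
eigenvalue `λ(θ)` of the question.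

Theorem. For every `α > 0`: `λ(θ) = - α²/4 - c θ⁴ + O(θ⁵)` as `θ → 0+`, with `c = α²/(36 π²)`.

Proof (in `Pool/Agent/T2H10/WB`, with helpers 7, 18, 34, 35, 46, 47, 48, 49, 50, 55, 57, 73, 74, 76, 80, 91, 93): by
duality the form inequality `2 ∫_Γ u² ≤ ‖∇u‖² + κ² ‖u‖²` (`α = 2`) is equivalent to an inequality for the energy of
densities on `Γ` with respect to the Green function of `-Δ + κ²`, which is a mixture of Gaussians. The operator of the
straight line is `T = (κ² - ∂²)^(-1/2) ≤ (1 + T²)/2`, and the bending adds a positive kernel of size `θ²`, concentrated at the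
corner, of total mass `θ²/(3π) + O(θ⁴)`; test functions `exp (-θ² |s|/(3π))` give the other inequality.
-/

set_option autoImplicit false

namespace Pool.Agent.Results.MP_687a20_mp.WeakBending

open Pool.Agent.T2H10.WB

theorem result : ∀ α : ℝ, 0 < α → ∃ C θ0 : ℝ, 0 < θ0 ∧ ∀ θ : ℝ, 0 < θ → θ < θ0 →
    |lam α θ - (-(1 / 4) * α ^ 2 - α ^ 2 / (36 * Real.pi ^ 2) * θ ^ 4)| ≤ C * θ ^ 5 := by
  have hINT := pINT pMOM pBAS
  have hLIM := pLIM pBAS hINT
  have hPSI := pPSI pGDE
  have hREP := pREP pIBP pHEA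
  have hPAI := pPAI pGDE hPSI hREP
  have hENE := pENE pGDE hPSI hPAI pSEM pHEA
  have hLOW := pLOW hPSI hPAI hENE hLIM pAPX
  have hUPP := pUPP pEXT hPSI hENE pGDE
  have hUPL := pUPL hUPP hLIM hINT
  have hCNV := pCNV pLAP
  have hQIN := pQIN pMOM hCNV pBAS
  have hDBD := pDBD pBAS
  have hDUP := pDUP hDBD pBAS
  have hDLO := pDLO hDBD pBAS
  have hSPL := pSPL hINT
  have hPER := pPER hDBD hDUP pSOB
  have hLBA := pLBA hQIN pFGH pSOB hPER hSPL
  have hTLO := pTLO pMOM pBAS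
  have hUBA := pUBA hDLO hTLO hSPL
  exact main hLOW hLBA hUPL hUBA pCPX pSCA

end Pool.Agent.Results.MP_687a20_mp.WeakBending
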